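import Pool.Agent.Helper20.FS.St

/-! Project SL, module UQ. -/

set_option autoImplicit false

open Topology Filter

namespace Pool.Agent.Helper11.SL

open Pool.Agent.Helper20.FA Pool.Agent.Helper20.FR Pool.Agent.Helper20.FS

attribute [local instance] IsFrechet.tag IsFrechet.csm IsFrechet.lcs

private theorem exists_seq {A : Type} [AddCommGroup A] [Module ℂ A] [TopologicalSpace A]
    [IsFrechet A] : ∃ π : ℕ → Seminorm ℂ A, (∀ i, Continuous (π i)) ∧
      ∀ q : Seminorm ℂ A, Continuous q → ∃ i, ∀ x, q x ≤ π i x := by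
  have hm : TopologicalSpace.MetrizableSpace A := IsFrechet.metr
  obtain ⟨V, hV⟩ := (𝓝 (0 : A)).exists_antitone_basis
  have hex : ∀ n, ∃ v : Seminorm ℂ A, Continuous v ∧ ∀ x, v x < 1 → x ∈ V n :=
    fun n => exists_seminorm (hV.1.mem_of_mem trivial)
  choose v hv hvV using hex
  refine ⟨v, hv, fun q hq => ?_⟩
  have h1 : {x : A | q x < 1} ∈ 𝓝 (0 : A) := by
    apply (isOpen_lt hq continuous_const).mem_nhds
    show q 0 < 1
    rw [map_zero]
    exact one_pos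
  obtain ⟨i, -, hi⟩ := hV.1.mem_iff.1 h1
  refine ⟨i, fun x => ?_⟩
  have h2 : ∀ y, v i y < 1 → q y < 1 := fun y hy => hi (hvV i y hy)
  by_contra hcon
  push Not at hcon
  have hv0 : 0 ≤ v i x := apply_nonneg (v i) x
  have hq0 : 0 < q x := lt_of_le_of_lt hv0 hcon
  have h3 := h2 (((q x)⁻¹ : ℂ) • x) (by
    rw [map_smul_eq_mul, norm_inv, Complex.norm_real, Real.norm_of_nonneg hq0.le,
      inv_mul_eq_div, div_lt_one hq0]
    exact hcon)
  rw [map_smul_eq_mul, norm_inv, Complex.norm_real, Real.norm_of_nonneg hq0.le,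
    inv_mul_cancel₀ hq0.ne'] at h3
  exact lt_irrefl _ h3

/-- UQ. -/
theorem hUQ (hGE : StGE) : StUQ := by
  intro A _ _ _ _ _ h1 h2 p hp
  obtain ⟨π, hπc, hπ⟩ := exists_seq (A := A)
  have claim : ∃ q : Seminorm ℂ A, Continuous q ∧ ∀ r : Seminorm ℂ A, Good r → StrictSem r →
      (∀ x, p x ≤ r x) → ∀ χ : A →ₐ[ℂ] ℂ, (∀ a, ‖χ a‖ ≤ p a) →
      ∃ α, χ α = 1 ∧ ∃ C : ℝ, ∀ b, r (α * b) ≤ C * q b := by
    by_contra hcon
    push Not at hcon
    choose r hrG hrS hpr χ hχ hbad using fun i => hcon (π i) (hπc i)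
    obtain ⟨q, hq, hqq⟩ := h2 χ p hp.1 hχ
    obtain ⟨i, hi⟩ := hπ q hq
    obtain ⟨α, hα, C, hC⟩ := hqq (r i) (hrG i) (hrS i) (hpr i) i
    obtain ⟨b, hb⟩ := hbad i α hα |C|
    have e1 := hC b
    have e2 : C * q b ≤ |C| * q b :=
      mul_le_mul_of_nonneg_right (le_abs_self C) (apply_nonneg q b)
    have e3 : |C| * q b ≤ |C| * π i b := mul_le_mul_of_nonneg_left (hi b) (abs_nonneg C)
    linarith
  obtain ⟨q, hq, hqq⟩ := claim
  refine ⟨q, hq, fun r hr => ?_⟩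
  obtain ⟨r', hr'G, hr'S, hr'⟩ := h1 (p + r) (hp.1.add hr.1)
  have hr'' : ∀ x, p x + r x ≤ r' x := fun x => hr' x
  by_contra hcon
  push Not at hcon
  let I : Ideal A :=
    { carrier := {x | ∃ C : ℝ, ∀ b, r' (x * b) ≤ C * q b}
      add_mem' := by
        rintro x y ⟨C, hC⟩ ⟨D, hD⟩
        refine ⟨C + D, fun b => ?_⟩
        rw [add_mul x y b, add_mul C D]
        exact (map_add_le_add r' _ _).trans (add_le_add (hC b) (hD b))
      zero_mem' := ⟨0, fun b => by rw [zero_mul, map_zero, zero_mul]⟩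
      smul_mem' := by
        rintro c x ⟨C, hC⟩
        refine ⟨r' c * C, fun b => ?_⟩
        rw [smul_eq_mul, mul_assoc c x b, mul_assoc (r' c)]
        exact (hr'G.2 _ _).trans (mul_le_mul_of_nonneg_left (hC b) (apply_nonneg r' c)) }
  have hI : ∀ x ∈ I, 1 / 2 ≤ p (1 - x) := by
    rintro x ⟨C, hC⟩
    by_contra hlt
    obtain ⟨b, hb⟩ := hcon x (not_le.1 hlt) C
    have e1 := hC b
    have e2 := hr'' (x * b)
    have e3 := apply_nonneg p (x * b)
    linarith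
  obtain ⟨χ, hχ, hχI⟩ := hGE A p hp.2 I hI
  obtain ⟨α, hα, C, hC⟩ := hqq r' hr'G hr'S (fun x => by
    have e1 := hr'' x
    have e2 := apply_nonneg r x
    linarith) χ hχ
  have h3 := hχI α ⟨C, hC⟩
  rw [hα] at h3
  exact one_ne_zero h3

end Pool.Agent.Helper11.SL
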